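import Mathlib
import Pool.Agent.Lib.lead.MRDP
import Pool.Agent.Lib.lead.Plactic

set_option autoImplicit false

namespace Pool.Agent.Results.MP_54e6ab_lc.Undecidable
open LeadMRDP LeadPlactic

/-- first-order formulas in the language of monoids with a constant for each letter; terms are
words in variables (de Bruijn indices) and constants -/
inductive Fml (A : Type) : Type
  | eq (u v : List (ℕ ⊕ A))
  | not (φ : Fml A)
  | and (φ ψ : Fml A)
  | ex (φ : Fml A)

/-- value of a term in the plactic monoid -/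
def evalTerm {A : Type} [LinearOrder A] (σ : ℕ → Plactic A) (u : List (ℕ ⊕ A)) : Plactic A :=
  (u.map (Sum.elim σ gen)).prod

/-- satisfaction in the plactic monoid; `ex` binds the variable `0` -/
def Sat {A : Type} [LinearOrder A] : (ℕ → Plactic A) → Fml A → Prop
  | σ, .eq u v => evalTerm σ u = evalTerm σ v
  | σ, .not φ => ¬ Sat σ φ
  | σ, .and φ ψ => Sat σ φ ∧ Sat σ ψ
  | σ, .ex φ => ∃ m, Sat (fun i => Nat.casesOn i m σ) φ

/-- all free variables have index `< k`; sentences are the formulas with `Bounded 0` -/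
def Bounded {A : Type} : ℕ → Fml A → Prop
  | k, .eq u v => ∀ i, Sum.inl i ∈ u ++ v → i < k
  | k, .not φ => Bounded k φ
  | k, .and φ ψ => Bounded k φ ∧ Bounded k ψ
  | k, .ex φ => Bounded (k + 1) φ

/-- Gödel number of a formula -/
def code {A : Type} [Primcodable A] : Fml A → ℕ
  | .eq u v => Nat.pair 0 (Encodable.encode (u, v))
  | .not φ => Nat.pair 1 (code φ)
  | .and φ ψ => Nat.pair 2 (Nat.pair (code φ) (code ψ))
  | .ex φ => Nat.pair 3 (code φ)

theorem code_inj {A : Type} [Primcodable A] : ∀ φ ψ : Fml A, code φ = code ψ → φ = ψ := by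
  intro φ
  induction φ with
  | eq u v =>
    intro ψ h
    cases ψ <;> simp only [code, Nat.pair_eq_pair, Encodable.encode_inj, Prod.mk.injEq] at h
    · rw [h.2.1, h.2.2]
    all_goals omega
  | not φ ih =>
    intro ψ h
    cases ψ <;> simp only [code, Nat.pair_eq_pair] at h
    case not => rw [ih _ h.2]
    all_goals omega
  | and φ φ' ih ih' =>
    intro ψ h
    cases ψ <;> simp only [code, Nat.pair_eq_pair] at h
    case and => rw [ih _ h.2.1, ih' _ h.2.2]
    all_goals omega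
  | ex φ ih =>
    intro ψ h
    cases ψ <;> simp only [code, Nat.pair_eq_pair] at h
    case ex => rw [ih _ h.2]
    all_goals omega

section
variable {A : Type}

theorem Bounded.mono : ∀ (φ : Fml A) {k l : ℕ}, k ≤ l → Bounded k φ → Bounded l φ
  | .eq _ _, _, _, h, h' => fun i hi => (h' i hi).trans_le h
  | .not φ, _, _, h, h' => Bounded.mono φ h h'
  | .and φ ψ, _, _, h, h' => ⟨Bounded.mono φ h h'.1, Bounded.mono ψ h h'.2⟩
  | .ex φ, _, _, h, h' => Bounded.mono φ (Nat.succ_le_succ h) h'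

theorem exists_bounded (φ : Fml A) : ∃ k, Bounded k φ := by
  induction φ with
  | eq u v =>
    refine ⟨((u ++ v).map (Sum.elim id fun _ => 0)).sum + 1, fun i hi => Nat.lt_succ_of_le ?_⟩
    exact List.single_le_sum (by simp) _ (List.mem_map.2 ⟨_, hi, rfl⟩)
  | not φ ih => exact ih
  | and φ ψ h1 h2 =>
    obtain ⟨k, h1⟩ := h1
    obtain ⟨l, h2⟩ := h2
    exact ⟨k + l, Bounded.mono _ (by omega) h1, Bounded.mono _ (by omega) h2⟩
  | ex φ ih => obtain ⟨k, h⟩ := ih; exact ⟨k, Bounded.mono φ (Nat.le_succ k) h⟩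

def exN : ℕ → Fml A → Fml A
  | 0, φ => φ
  | n + 1, φ => exN n (.ex φ)

theorem bounded_exN : ∀ (n : ℕ) (φ : Fml A), Bounded n φ → Bounded 0 (exN n φ)
  | 0, _, h => h
  | n + 1, φ, h => bounded_exN n (.ex φ) h

variable [LinearOrder A]

theorem sat_congr : ∀ (φ : Fml A) (k : ℕ) (σ τ : ℕ → Plactic A), Bounded k φ →
    (∀ i < k, σ i = τ i) → (Sat σ φ ↔ Sat τ φ)
  | .eq u v, k, σ, τ, h, e => by
    have : ∀ w : List (ℕ ⊕ A), (∀ i, Sum.inl i ∈ w → i < k) → evalTerm σ w = evalTerm τ w := by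
      intro w hw
      unfold evalTerm
      congr 1
      refine List.map_congr_left ?_
      rintro (i | a) hi
      · exact e i (hw i hi)
      · rfl
    simp only [Sat]
    rw [this u fun i hi => h i (by simp [hi]), this v fun i hi => h i (by simp [hi])]
  | .not φ, k, σ, τ, h, e => not_congr (sat_congr φ k σ τ h e)
  | .and φ ψ, k, σ, τ, h, e => and_congr (sat_congr φ k σ τ h.1 e) (sat_congr ψ k σ τ h.2 e)
  | .ex φ, k, σ, τ, h, e => exists_congr fun m => sat_congr φ (k + 1) _ _ h fun i hi => by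
      cases i with
      | zero => rfl
      | succ i => exact e i (by omega)

theorem sat_exN : ∀ (n : ℕ) (φ : Fml A) (σ : ℕ → Plactic A), Bounded n φ →
    (Sat σ (exN n φ) ↔ ∃ τ, Sat τ φ)
  | 0, φ, σ, h => ⟨fun h => ⟨σ, h⟩, fun ⟨τ, h'⟩ => (sat_congr φ 0 σ τ h (by simp)).2 h'⟩
  | n + 1, φ, σ, h => by
    rw [exN, sat_exN n (.ex φ) σ h]
    constructor
    · rintro ⟨τ, m, h'⟩; exact ⟨_, h'⟩
    · rintro ⟨τ, h'⟩
      refine ⟨fun i => τ (i + 1), τ 0, ?_⟩
      convert h' using 1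
      funext i; cases i <;> rfl

def D (P : (ℕ → Plactic A) → Prop) : Prop := ∃ φ : Fml A, ∀ σ, Sat σ φ ↔ P σ
def T (f : (ℕ → Plactic A) → Plactic A) : Prop := ∃ w, ∀ σ, evalTerm σ w = f σ

variable {P Q : (ℕ → Plactic A) → Prop} {f g h k : (ℕ → Plactic A) → Plactic A}

theorem T.var (i : ℕ) : T fun σ : ℕ → Plactic A => σ i := ⟨[.inl i], by simp [evalTerm]⟩
theorem T.cst (a : A) : T fun _ => gen a := ⟨[.inr a], by simp [evalTerm]⟩
theorem T.one : T fun _ : ℕ → Plactic A => 1 := ⟨[], by simp [evalTerm]⟩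
theorem T.mul (hf : T f) (hg : T g) : T fun σ => f σ * g σ := by
  obtain ⟨u, hu⟩ := hf
  obtain ⟨v, hv⟩ := hg
  exact ⟨u ++ v, fun σ => by simp only [← hu, ← hv]; simp [evalTerm]⟩
theorem T.up (hf : T f) : T fun σ => f fun i => σ (i + 1) := by
  obtain ⟨u, hu⟩ := hf
  refine ⟨u.map (Sum.map Nat.succ id), fun σ => ?_⟩
  simp only [← hu]
  simp only [evalTerm, List.map_map]
  congr 2
  funext x; cases x <;> rfl

theorem D.eq (hf : T f) (hg : T g) : D fun σ => f σ = g σ := by
  obtain ⟨u, hu⟩ := hf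
  obtain ⟨v, hv⟩ := hg
  exact ⟨.eq u v, fun σ => by simp [Sat, hu, hv]⟩
theorem D.not (h : D P) : D fun σ => ¬ P σ := by
  obtain ⟨φ, h⟩ := h; exact ⟨.not φ, fun σ => by simp [Sat, h]⟩
theorem D.and (h : D P) (h' : D Q) : D fun σ => P σ ∧ Q σ := by
  obtain ⟨φ, h⟩ := h; obtain ⟨ψ, h'⟩ := h'; exact ⟨.and φ ψ, fun σ => by simp [Sat, h, h']⟩
theorem D.imp (h : D P) (h' : D Q) : D fun σ => P σ → Q σ := by
  simpa using (h.and h'.not).not
theorem D.ex {R : Plactic A → (ℕ → Plactic A) → Prop}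
    (h : D fun τ => R (τ 0) fun i => τ (i + 1)) : D fun σ => ∃ m, R m σ := by
  obtain ⟨φ, h⟩ := h; exact ⟨.ex φ, fun σ => exists_congr fun m => h _⟩
theorem D.all {R : Plactic A → (ℕ → Plactic A) → Prop}
    (h : D fun τ => R (τ 0) fun i => τ (i + 1)) : D fun σ => ∀ m, R m σ := by
  simpa using (D.ex (R := fun m σ => ¬ R m σ) h.not).not
theorem D.list {ι : Type} (l : List ι) (R : ι → (ℕ → Plactic A) → Prop) (h : ∀ i, D (R i)) :
    D fun σ => ∀ i ∈ l, R i σ := by
  induction l with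
  | nil => simpa using D.eq (A := A) T.one T.one
  | cons a l ih => simpa using (h a).and ih

theorem D.isGen (hf : T f) : D fun σ => IsGen (f σ) :=
  (D.eq hf T.one).not.and (D.all (D.all ((D.eq hf.up.up ((T.var 1).mul (T.var 0))).imp
    ((D.eq (T.var 1) T.one).not.imp (D.eq (T.var 0) T.one)))))
theorem D.occ (hf : T f) (hg : T g) : D fun σ => Occ (f σ) (g σ) :=
  D.ex (D.ex (D.eq hg.up.up (((T.var 1).mul hf.up.up).mul (T.var 0))))
theorem D.pw (hf : T f) (hg : T g) : D fun σ => Pw (f σ) (g σ) :=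
  D.all ((D.isGen (T.var 0)).imp ((D.occ (T.var 0) hf.up).imp (D.eq (T.var 0) hg.up)))
theorem D.lt (hf : T f) (hg : T g) : D fun σ => Lt (f σ) (g σ) :=
  (D.eq hf hg).not.and (D.eq ((hf.mul hg).mul hf) ((hg.mul hf).mul hf))
theorem D.row (hf : T f) (hg : T g) : D fun σ => Row (f σ) (g σ) :=
  (D.all ((D.isGen (T.var 0)).imp ((D.occ (T.var 0) hg.up).imp (D.lt hf.up (T.var 0))))).and
    (D.all (D.all ((D.isGen (T.var 1)).imp ((D.isGen (T.var 0)).imp
      ((D.occ ((T.var 1).mul (T.var 0)) hg.up.up).imp (D.lt (T.var 0) (T.var 1)).not)))))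
theorem D.len (hf : T f) (hg : T g) (hh : T h) : D fun σ => Len (f σ) (g σ) (h σ) :=
  (D.eq ((hg.mul hh).mul hf) ((hf.mul hg).mul hh)).and
    (D.all ((D.eq hh.up ((T.var 0).mul hf.up)).imp
      (D.eq ((hg.up.mul (T.var 0)).mul hf.up) ((hf.up.mul hg.up).mul (T.var 0))).not))
theorem D.cnt (hf : T f) (hg : T g) (hh : T h) (hk : T k) :
    D fun σ => Cnt (f σ) (g σ) (h σ) (k σ) :=
  D.ex (D.ex (D.ex ((D.eq hg.up.up.up (((T.var 2).mul (T.var 1)).mul (T.var 0))).and
    ((D.pw (T.var 1) hh.up.up.up).and ((D.occ hh.up.up.up (T.var 2)).not.and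
      ((D.occ hh.up.up.up (T.var 0)).not.and (D.len hf.up.up.up (T.var 1) hk.up.up.up)))))))
theorem D.mulP (hf : T f) (hg : T g) (hh : T h) (hk : T k) :
    D fun σ => MulP (f σ) (g σ) (h σ) (k σ) :=
  D.ex (D.ex ((D.row hf.up.up (T.var 1)).and ((D.row hf.up.up (T.var 0)).and
    ((D.len hf.up.up (T.var 1) hg.up.up).and ((D.len hf.up.up (T.var 0) hk.up.up).and
      (D.all ((D.isGen (T.var 0)).imp
        (((D.occ (T.var 0) (T.var 2)).not.and (D.occ (T.var 0) (T.var 1)).not).not.imp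
          ((D.cnt hf.up.up.up (T.var 2) (T.var 0) hh.up.up.up).and
            (D.cnt hf.up.up.up (T.var 1) (T.var 0) hf.up.up.up))))))))))

def conP {V : Type} (c : A) (e : V → ℕ) : Con V → (ℕ → Plactic A) → Prop
  | .add x y z => fun σ => σ (e x) = σ (e y) * σ (e z)
  | .one x => fun σ => σ (e x) = gen c
  | .mul x y z => fun σ => MulP (gen c) (σ (e x)) (σ (e y)) (σ (e z))

theorem conP_D {V : Type} (c : A) (e : V → ℕ) : ∀ t : Con V, D (conP c e t)
  | .add _ _ _ => D.eq (T.var _) ((T.var _).mul (T.var _))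
  | .one _ => D.eq (T.var _) (T.cst c)
  | .mul _ _ _ => D.mulP (T.cst c) (T.var _) (T.var _) (T.var _)

end

theorem result (A : Type) [LinearOrder A] [NoMaxOrder A] [Nonempty A] [Primcodable A] :
    ¬ ComputablePred fun n : ℕ =>
      ∃ φ : Fml A, code φ = n ∧ Bounded 0 φ ∧ ∀ σ : ℕ → Plactic A, Sat σ φ := by
  intro H
  obtain ⟨c⟩ := ‹Nonempty A›
  obtain ⟨V, hV, x0, L, h⟩ := exists_flat_nat
  have := Fintype.ofFinite V
  obtain ⟨e, he⟩ := Countable.exists_injective_nat V
  obtain ⟨ψ, hψ⟩ := (D.list (Finset.univ : Finset V).toList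
    (fun v (σ : ℕ → Plactic A) => Pw (σ (e v)) (gen c))
    (fun v => D.pw (T.var _) (T.cst c))).and (D.list L (conP c e) (conP_D c e))
  obtain ⟨N, hN⟩ := exists_bounded ψ
  let φ : ℕ → Fml A := fun n => .and (.eq [.inl (e x0)] ((List.range n).map fun _ => .inr c)) ψ
  have hb : ∀ n, Bounded (N + e x0 + 1) (φ n) := fun n =>
    ⟨fun i hi => by simp at hi; omega, Bounded.mono _ (by omega) hN⟩
  have hpair : Primrec₂ Nat.pair := Primrec₂.natPair
  have hex : ∀ (M : ℕ) (χ : ℕ → Fml A), Primrec (fun n => code (χ n)) →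
      Primrec fun n => code (exN M (χ n)) := by
    intro M
    induction M with
    | zero => exact fun _ h => h
    | succ M ih => exact fun χ h => ih (fun n => .ex (χ n)) (hpair.comp (Primrec.const 3) h)
  have hF : Primrec fun n => code (exN (N + e x0 + 1) (φ n)) := hex _ _
    (hpair.comp (Primrec.const 2) (hpair.comp (hpair.comp (Primrec.const 0)
      (Primrec.encode.comp ((Primrec.const _).pair
        (Primrec.list_map Primrec.list_range (Primrec.const _).to₂)))) (Primrec.const _)))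
  obtain ⟨inst, H⟩ := H
  apply h
  refine ComputablePred.of_eq ⟨fun n => inst _, H.comp hF.to_comp⟩ fun n => ?_
  have key : (∃ τ, Sat τ (φ n)) ↔ ∃ v : V → ℕ, v x0 = n ∧ ∀ t ∈ L, t.sat v := by
    have e0 : ∀ τ : ℕ → Plactic A, Sat τ (φ n) ↔ τ (e x0) = gen c ^ n ∧ Sat τ ψ := by
      intro τ; simp [φ, Sat, evalTerm, Function.comp_def]
    simp only [e0, hψ]
    constructor
    · rintro ⟨τ, h0, h1, h2⟩
      choose v hv using fun x => pw_iff.1 (h1 x (by simp))
      refine ⟨v, pow_inj ((hv x0).symm.trans h0), fun t ht => ?_⟩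
      have := h2 t ht
      cases t with
      | add x y z => simp only [conP, hv, ← pow_add] at this; exact pow_inj this
      | one x => simp only [conP, hv] at this; exact pow_inj (this.trans (pow_one _).symm)
      | mul x y z => simp only [conP, hv] at this; exact (mulP_iff c _ _ _).1 this
    · rintro ⟨v, h0, h1⟩
      have hτ : ∀ x, Function.extend e (fun x => gen c ^ v x) (fun _ => 1) (e x) = gen c ^ v x :=
        fun x => he.extend_apply _ _ x
      refine ⟨Function.extend e (fun x => gen c ^ v x) fun _ => 1, by rw [hτ, h0],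
        fun x _ => pw_iff.2 ⟨_, hτ x⟩, fun t ht => ?_⟩
      have := h1 t ht
      cases t with
      | add x y z => simp only [Con.sat] at this; simp only [conP, hτ, this, pow_add]
      | one x => simp only [Con.sat] at this; simp only [conP, hτ, this, pow_one]
      | mul x y z => simp only [conP, hτ]; exact (mulP_iff c _ _ _).2 this
  rw [← key]
  constructor
  · rintro ⟨χ, h1, _, h2⟩
    rw [code_inj _ _ h1] at h2
    exact (sat_exN _ _ _ (hb n)).1 (h2 fun _ => 1)
  · intro h1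
    exact ⟨_, rfl, bounded_exN _ _ (hb n), fun σ => (sat_exN _ _ σ (hb n)).2 h1⟩


end Pool.Agent.Results.MP_54e6ab_lc.Undecidable
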